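import Mathlib
import Pool.Agent.H.MP_16b0c2_al.A

namespace Pool.Agent.Results.MP_16b0c2_al.Contain

open Pool.Agent.H.MP_16b0c2_al

universe u

section General

variable {G : Type u} [Group G]

theorem kill (H : Subgroup G) {A : Type} [CommGroup A] (θ : H →* A) (g : H)
    (hg : (g : G) ∈ ⁅H, H⁆) : θ g = 1 := by
  rw [← Subgroup.map_subtype_commutator] at hg
  obtain ⟨x, hx, e⟩ := hg
  have : x = g := Subtype.ext e
  exact Abelianization.commutator_subset_ker θ (this ▸ hx)

noncomputable def rho (S : Subgroup G) : G →* Module.End ℂ (G ⧸ S →₀ ℂ) where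
  toFun g := Finsupp.lmapDomain ℂ ℂ (g • ·)
  map_one' := by ext; simp
  map_mul' x y := by ext; simp [mul_smul]

theorem rho_apply (S : Subgroup G) (g : G) (f : G ⧸ S →₀ ℂ) (u : G ⧸ S) :
    rho S g f (g • u) = f u :=
  Finsupp.mapDomain_apply (MulAction.injective g) f u

theorem vanish (R S : Subgroup G) [R.Normal] (h : ⁅R, R⁆ ≤ ⁅S, S⁆) (c : G → (G ⧸ S →₀ ℂ))
    (hc : ∀ g h, c (g * h) = c g + rho S g (c h)) (g : G) (hg : g ∈ ⁅R, R⁆) : c g = 0 := by
  ext u
  obtain ⟨k, rfl⟩ : ∃ k : G, k • ((1 : G) : G ⧸ S) = u := by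
    induction u using QuotientGroup.induction_on with
    | H k => exact ⟨k, by simp⟩
  set u := k • ((1 : G) : G ⧸ S) with hu
  have c1 : c 1 = 0 := by simpa using hc 1 1
  let θ : MulAction.stabilizer G u →* Multiplicative ℂ :=
    { toFun := fun x => Multiplicative.ofAdd (c x u)
      map_one' := by simp [c1]
      map_mul' := fun x y => by
        have := rho_apply S x (c y) u
        rw [x.2] at this
        simp [hc, this] }
  have hm : g ∈ ⁅MulAction.stabilizer G u, MulAction.stabilizer G u⁆ := by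
    rw [hu, MulAction.stabilizer_smul_eq_stabilizer_map_conj, MulAction.stabilizer_quotient,
      ← Subgroup.map_commutator]
    refine ⟨k⁻¹ * g * k⁻¹⁻¹, h (Subgroup.Normal.conj_mem inferInstance g hg k⁻¹), ?_⟩
    simp [mul_assoc]
  have hm' : g ∈ MulAction.stabilizer G u := Subgroup.commutator_le_self _ hm
  exact kill _ θ ⟨g, hm'⟩ hm

theorem exists_chi (R S : Subgroup G) (h : ⁅R, R⁆ ≤ S) (s : R) (hs : (s : G) ∉ S) :
    ∃ χ : R →* ℂ, χ s ≠ 1 ∧ ∀ r : R, (r : G) ∈ S → χ r = 1 := by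
  let N : Subgroup (Abelianization R) := (S.subgroupOf R).map Abelianization.of
  obtain ⟨χ, hχ⟩ := exists_char (B := Abelianization R ⧸ N)
    (QuotientGroup.mk' N (Abelianization.of s)) (fun e => by
      obtain ⟨x, hx, e'⟩ := (QuotientGroup.eq_one_iff _).1 e
      have h1 : x⁻¹ * s ∈ commutator R := QuotientGroup.eq.1 e'
      have h2 : ((x⁻¹ * s : R) : G) ∈ ⁅R, R⁆ := by
        rw [← Subgroup.map_subtype_commutator]
        exact ⟨_, h1, rfl⟩
      have h3 := S.mul_mem hx (h h2)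
      simp at h3
      exact hs h3)
  refine ⟨χ.comp ((QuotientGroup.mk' N).comp Abelianization.of), hχ, fun r hr => ?_⟩
  have : QuotientGroup.mk' N (Abelianization.of r) = 1 :=
    (QuotientGroup.eq_one_iff _).2 ⟨r, hr, rfl⟩
  simp only [MonoidHom.comp_apply, this, map_one]

theorem exists_m (R S : Subgroup G) (χ : R →* ℂ) (hχ : ∀ r : R, (r : G) ∈ S → χ r = 1) :
    ∃ m : G ⧸ S → ℂ, m ((1 : G) : G ⧸ S) = 1 ∧ (∀ (r : R) u, m ((r : G) • u) = χ r * m u) ∧
      ∀ u, m u ≠ 0 → ∃ r : R, u = (r : G) • ((1 : G) : G ⧸ S) := by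
  classical
  let m : G ⧸ S → ℂ := fun u =>
    if h : ∃ r : R, u = (r : G) • ((1 : G) : G ⧸ S) then χ h.choose else 0
  have key : ∀ r : R, m ((r : G) • ((1 : G) : G ⧸ S)) = χ r := by
    intro r
    have h : ∃ r' : R, (r : G) • ((1 : G) : G ⧸ S) = (r' : G) • ((1 : G) : G ⧸ S) := ⟨r, rfl⟩
    have h1 := h.choose_spec
    simp only [m, dif_pos h]
    have h2 : ((r⁻¹ * h.choose : R) : G) ∈ S := by
      simpa [QuotientGroup.eq] using h1
    calc χ h.choose = χ (r * (r⁻¹ * h.choose)) := by rw [mul_inv_cancel_left]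
      _ = χ r := by rw [map_mul, hχ _ h2, mul_one]
  refine ⟨m, by simpa using key 1, fun r u => ?_, fun u hu => ?_⟩
  · by_cases h : ∃ r : R, u = (r : G) • ((1 : G) : G ⧸ S)
    · obtain ⟨r', rfl⟩ := h
      rw [← mul_smul, ← Subgroup.coe_mul, key, key, map_mul]
    · have h' : ¬ ∃ r' : R, (r : G) • u = (r' : G) • ((1 : G) : G ⧸ S) := by
        rintro ⟨r', e⟩
        exact h ⟨r⁻¹ * r', by rw [Subgroup.coe_mul, mul_smul, ← e]; simp⟩
      simp only [m, dif_neg h, dif_neg h', mul_zero]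
  · by_contra h
    exact hu (dif_neg h)

variable {X : Type u} [MulAction G X]

def TT (m : X → ℂ) (o : X) (h1 : m o = 1) : Subgroup G where
  carrier := {t | ∀ u, m (t • u) = m (t • o) * m u}
  one_mem' := fun u => by simp [h1]
  mul_mem' := fun {a b} ha hb u => by
    rw [mul_smul, mul_smul, ha (b • u), ha (b • o), hb u, mul_assoc]
  inv_mem' := fun {a} ha u => by
    have e1 := ha (a⁻¹ • u)
    have e2 := ha (a⁻¹ • o)
    rw [smul_inv_smul] at e1 e2
    rw [h1] at e2
    rw [e1, ← mul_assoc, mul_comm (m (a⁻¹ • o)), ← e2, one_mul]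

def chT (m : X → ℂ) (o : X) (h1 : m o = 1) : TT (G := G) m o h1 →* ℂ where
  toFun t := m ((t : G) • o)
  map_one' := by simp [h1]
  map_mul' a b := by rw [Subgroup.coe_mul, mul_smul, a.2]

theorem indep (R : Subgroup G) [hR : R.Normal] (χ : R →* ℂ) (m : X → ℂ) (o : X) (h1 : m o = 1)
    (h2 : ∀ (r : R) u, m ((r : G) • u) = χ r * m u)
    (h3 : ∀ u, m u ≠ 0 → ∃ r : R, u = (r : G) • o) :
    LinearIndependent ℂ fun (q : Quotient (QuotientGroup.rightRel (TT (G := G) m o h1))) (u : X) =>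
      m (q.out • u) := by
  classical
  let ψ : G → (R →* ℂ) := fun h => χ.comp (MulAut.conjNormal h).toMonoidHom
  have hψ : ∀ (h : G) (r : R) u, m (h • (r : G) • u) = ψ h r * m (h • u) := by
    intro h r u
    rw [← mul_smul, show h * r = (h * r * h⁻¹) * h by group, mul_smul]
    exact h2 (MulAut.conjNormal h r) _
  have orb : ∀ (h : G) u w, m (h • u) ≠ 0 → m (h • w) ≠ 0 → ∃ r : R, w = (r : G) • u := by
    intro h u w hu hw
    obtain ⟨r, hr⟩ := h3 _ hu
    obtain ⟨r', hr'⟩ := h3 _ hw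
    refine ⟨⟨h⁻¹ * (r' * r⁻¹ : R) * h⁻¹⁻¹, hR.conj_mem _ (r' * r⁻¹).2 _⟩, ?_⟩
    simp only [inv_inv, mul_smul, Subgroup.coe_mul, hr, Subgroup.coe_inv, inv_smul_smul, ← hr']
  have same : ∀ (h h' : G) u, m (h • u) ≠ 0 → m (h' • u) ≠ 0 → ψ h = ψ h' →
      h' * h⁻¹ ∈ TT (G := G) m o h1 := by
    intro h h' u hu hu' e
    have prop : ∀ w, m (h' • w) * m (h • u) = m (h' • u) * m (h • w) := by
      intro w
      by_cases hw : ∃ r : R, w = (r : G) • u
      · obtain ⟨r, rfl⟩ := hw
        rw [hψ, hψ, e]; ring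
      · have z1 : m (h • w) = 0 := by
          by_contra z; exact hw (orb h u w hu z)
        have z2 : m (h' • w) = 0 := by
          by_contra z; exact hw (orb h' u w hu' z)
        rw [z1, z2]; ring
    intro w
    have e1 := prop (h⁻¹ • w)
    have e2 := prop (h⁻¹ • o)
    rw [smul_inv_smul] at e1 e2
    rw [h1] at e2
    rw [mul_smul, mul_smul]
    apply mul_right_cancel₀ hu
    linear_combination e1 - m w * e2
  rw [linearIndependent_iff']
  intro s a hs i hi
  let u : X := (i.out)⁻¹ • o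
  have hu : m (i.out • u) ≠ 0 := by simp [u, h1]
  let ι := {q : Quotient (QuotientGroup.rightRel (TT (G := G) m o h1)) // m (q.out • u) ≠ 0}
  have li : LinearIndependent ℂ fun q : ι => (ψ q.1.out : R → ℂ) := by
    refine (linearIndependent_monoidHom R ℂ).comp (fun q : ι => ψ q.1.out) fun q q' e => ?_
    apply Subtype.ext
    rw [← q.1.out_eq, ← q'.1.out_eq]
    exact Quotient.sound (QuotientGroup.rightRel_apply.2 (same _ _ u q.2 q'.2 e))
  rw [linearIndependent_iff'] at li
  have := li (s.subtype _) (fun q => a q.1 * m (q.1.out • u)) (by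
    funext r
    have e := congrFun hs ((r : G) • u)
    simp only [Finset.sum_apply, Pi.smul_apply, smul_eq_mul, Pi.zero_apply, hψ] at e ⊢
    rw [Finset.sum_subtype_eq_sum_filter (f := fun q => a q * m (q.out • u) * ψ q.out r),
      Finset.sum_filter]
    refine Eq.trans (Finset.sum_congr rfl fun q _ => ?_) e
    split_ifs with hq
    · ring
    · rw [not_not.1 hq]; ring) ⟨i, hu⟩ (Finset.mem_subtype.2 hi)
  exact (mul_eq_zero.1 this).resolve_right hu

theorem exists_lam (R : Subgroup G) [hR : R.Normal] (χ : R →* ℂ) (m : X → ℂ) (o : X)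
    (h1 : m o = 1) (h2 : ∀ (r : R) u, m ((r : G) • u) = χ r * m u)
    (h3 : ∀ u, m u ≠ 0 → ∃ r : R, u = (r : G) • o) (l : G → ℂ)
    (hl : ∀ (t : TT (G := G) m o h1) g, l (t * g) = chT m o h1 t * l g) :
    ∃ L : (X → ℂ) →ₗ[ℂ] ℂ, ∀ g : G, L (fun u => m (g • u)) = l g := by
  have li := indep R χ m o h1 h2 h3
  obtain ⟨L, hL⟩ := LinearMap.exists_extend
    ((Finsupp.linearCombination ℂ fun q => l q.out) ∘ₗ li.repr)
  refine ⟨L, fun g => ?_⟩
  let q : Quotient (QuotientGroup.rightRel (TT (G := G) m o h1)) := Quotient.mk _ g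
  have ht : g * (q.out)⁻¹ ∈ TT (G := G) m o h1 :=
    QuotientGroup.rightRel_apply.1 (Quotient.exact (q.out_eq.trans rfl))
  have e1 : L (fun u => m (q.out • u)) = l q.out := by
    have := LinearMap.congr_fun hL ⟨_, Submodule.subset_span ⟨q, rfl⟩⟩
    simp only [LinearMap.comp_apply, Submodule.subtype_apply] at this
    rw [this, li.repr_eq_single q _ rfl]
    simp
  have e2 : (fun u => m (g • u)) = chT m o h1 ⟨_, ht⟩ • fun u => m (q.out • u) := by
    funext u
    have := ht (q.out • u)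
    rw [← mul_smul, inv_mul_cancel_right] at this
    exact this
  rw [e2, map_smul, e1, smul_eq_mul, ← hl]
  simp

theorem exists_ext (T : Subgroup G) (ω : T →* ℂ) (κ : T → ℂ)
    (hκ : ∀ a b, κ (a * b) = κ a + ω a * κ b) :
    ∃ K : G → ℂ, ∀ (t : T) g, K (t * g) = κ t + ω t * K g := by
  have ht : ∀ g : G, g * ((Quotient.mk (QuotientGroup.rightRel T) g).out)⁻¹ ∈ T := fun g =>
    QuotientGroup.rightRel_apply.1 (Quotient.exact ((Quotient.out_eq _).trans rfl))
  refine ⟨fun g => κ ⟨_, ht g⟩, fun t g => ?_⟩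
  have e : Quotient.mk (QuotientGroup.rightRel T) (t * g) = Quotient.mk _ g :=
    Quotient.sound (QuotientGroup.rightRel_apply.2 (by simp))
  rw [← hκ]
  refine congrArg κ (Subtype.ext ?_)
  simp only [e, Subgroup.coe_mul, mul_assoc]

end General

theorem transfer {α : Type u} (R S : Subgroup (FreeGroup α)) [R.Normal] (h : ⁅R, R⁆ ≤ ⁅S, S⁆)
    (m : FreeGroup α ⧸ S → ℂ) (K : FreeGroup α → ℂ)
    (hL : ∀ x : α, ∃ L : (FreeGroup α ⧸ S → ℂ) →ₗ[ℂ] ℂ, ∀ g : FreeGroup α,
      L (fun u => m (g • u)) = K (g * FreeGroup.of x) - K g)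
    (g : FreeGroup α) (hg : g ∈ ⁅R, R⁆) : K g = K 1 := by
  classical
  choose L hL using hL
  choose c hc hv using fun (y : α) (w : FreeGroup α ⧸ S) =>
    exists_cocycle (FreeGroupBasis.ofFreeGroup α) (rho S)
      (fun x => if x = y then Finsupp.single w (1 : ℂ) else 0)
  simp only [FreeGroupBasis.ofFreeGroup_apply] at hv
  have c1 : ∀ y w, c y w 1 = 0 := fun y w => by simpa using hc y w 1 1
  have pair : ∀ (φ : FreeGroup α ⧸ S → ℂ) (a : FreeGroup α) f,
      Finsupp.linearCombination ℂ φ (rho S a f) =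
        Finsupp.linearCombination ℂ (fun u => φ (a • u)) f := fun φ a f =>
    Finsupp.linearCombination_mapDomain ℂ _ f
  have main : ∀ a : FreeGroup α, ∃ d : (FreeGroup α ⧸ S → ℂ) → (α →₀ (FreeGroup α ⧸ S → ℂ)),
      (∀ φ y w, d φ y w = Finsupp.linearCombination ℂ φ (c y w a)) ∧
      ∀ b : FreeGroup α, Finsupp.lsum ℂ L (d fun u => m (b • u)) = K (b * a) - K b := by
    have inv : ∀ a : FreeGroup α,
        (∃ d : (FreeGroup α ⧸ S → ℂ) → (α →₀ (FreeGroup α ⧸ S → ℂ)),
        (∀ φ y w, d φ y w = Finsupp.linearCombination ℂ φ (c y w a)) ∧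
        ∀ b : FreeGroup α, Finsupp.lsum ℂ L (d fun u => m (b • u)) = K (b * a) - K b) →
        ∃ d : (FreeGroup α ⧸ S → ℂ) → (α →₀ (FreeGroup α ⧸ S → ℂ)),
        (∀ φ y w, d φ y w = Finsupp.linearCombination ℂ φ (c y w a⁻¹)) ∧
        ∀ b : FreeGroup α, Finsupp.lsum ℂ L (d fun u => m (b • u)) = K (b * a⁻¹) - K b := by
      rintro a ⟨d, d1, d2⟩
      refine ⟨fun φ => - d (fun u => φ (a⁻¹ • u)), fun φ y w => ?_, fun b => ?_⟩
      · have := hc y w a⁻¹ a
        rw [inv_mul_cancel, c1, eq_comm, add_eq_zero_iff_eq_neg] at this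
        rw [this, map_neg, pair, ← d1]
        rfl
      · simp only [← mul_smul, map_neg, d2, inv_mul_cancel_right]
        ring
    intro a
    induction a using FreeGroup.induction_on with
    | C1 => exact ⟨fun _ => 0, fun φ y w => by simp [c1], fun b => by simp⟩
    | of x =>
      refine ⟨fun φ => Finsupp.single x φ, fun φ y w => ?_, fun b => by simp [hL]⟩
      rw [hv, Finsupp.single_apply]
      split_ifs <;> simp
    | inv_of x hx => exact inv _ hx
    | mul a a' ha ha' =>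
      obtain ⟨d, d1, d2⟩ := ha
      obtain ⟨d', d1', d2'⟩ := ha'
      refine ⟨fun φ => d φ + d' (fun u => φ (a • u)), fun φ y w => ?_, fun b => ?_⟩
      · rw [hc, map_add, pair, ← d1, ← d1']
        rfl
      · simp only [← mul_smul, map_add, d2, d2', mul_assoc]
        ring
  obtain ⟨d, d1, d2⟩ := main g
  have z : ∀ φ, d φ = 0 := fun φ => by
    ext y w
    rw [d1, vanish R S h _ (hc y w) g hg]
    simp
  have := d2 1
  rw [z, map_zero, one_mul] at this
  linear_combination -this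

theorem result {α : Type u} [Nontrivial α] (R S : Subgroup (FreeGroup α)) (hR : R.Normal)
    (h : ⁅R, R⁆ ≤ ⁅S, S⁆) : R ≤ S := by
  classical
  intro s hsR
  by_contra hs
  obtain ⟨χ, hχ, hχS⟩ := exists_chi R S (h.trans (Subgroup.commutator_le_self S)) ⟨s, hsR⟩ hs
  obtain ⟨m, h1, h2, h3⟩ := exists_m R S χ hχS
  set T := TT (G := FreeGroup α) m _ h1 with hT
  set ω := chT (G := FreeGroup α) m _ h1 with hω
  have RT : R ≤ T := fun r hr u => by
    rw [h2 ⟨r, hr⟩ u, h2 ⟨r, hr⟩, h1, mul_one]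
  let s' : T := ⟨s, RT hsR⟩
  have ωs : ω s' ≠ 1 := by
    have : ω s' = χ ⟨s, hsR⟩ := by
      have := h2 ⟨s, hsR⟩ ((1 : FreeGroup α) : FreeGroup α ⧸ S)
      rw [h1, mul_one] at this
      exact this
    rwa [this]
  have ωc : ∀ a b : T, ω (a * b * a⁻¹ * b⁻¹) = 1 := fun a b => by
    rw [map_mul, map_mul, map_mul, mul_right_comm (ω a), mul_assoc, ← map_mul, ← map_mul]
    simp
  have cob : ∀ κ : T → ℂ, (∀ a b, κ (a * b) = κ a + ω a * κ b) →
      ∀ t, (ω s' - 1) * κ t = (ω t - 1) * κ s' := by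
    intro κ hκ
    obtain ⟨K, hK⟩ := exists_ext T ω κ hκ
    have step : ∀ a b : T, κ (a * b * a⁻¹ * b⁻¹) = 0 →
        (ω b - 1) * κ a = (ω a - 1) * κ b := fun a b e => by
      have e1 := hκ (a * b * a⁻¹ * b⁻¹) (b * a)
      rw [e, ωc, show a * b * a⁻¹ * b⁻¹ * (b * a) = a * b by group, hκ, hκ] at e1
      linear_combination -e1
    have onR : ∀ r : T, (r : FreeGroup α) ∈ R → (ω s' - 1) * κ r = (ω r - 1) * κ s' := by
      intro r hr
      apply step
      have := transfer R S h m K (fun x => exists_lam R χ m _ h1 h2 h3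
        (fun g => K (g * FreeGroup.of x) - K g) (fun t g => by
          simp only [mul_assoc, hK]; ring))
        _ (Subgroup.commutator_mem_commutator hr hsR)
      have e := hK (r * s' * r⁻¹ * s'⁻¹) 1
      rw [ωc, mul_one] at e
      have e' : K ((r * s' * r⁻¹ * s'⁻¹ : T) : FreeGroup α) = K 1 := this
      linear_combination e' - e
    intro t
    apply step
    have := onR (t * s' * t⁻¹ * s'⁻¹) (R.mul_mem (hR.conj_mem s hsR t) (R.inv_mem hsR))
    rw [ωc, sub_self, zero_mul] at this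
    exact (mul_eq_zero.1 this).resolve_left (sub_ne_zero.2 ωs)
  by_cases hsub : Subsingleton (IsFreeGroup.Generators T)
  · have := free_cyc (α := IsFreeGroup.Generators T)
    have : IsCyclic T := isCyclic_of_surjective (IsFreeGroup.mulEquiv T)
      (IsFreeGroup.mulEquiv T).surjective
    have : IsCyclic R := Subgroup.isCyclic_of_le RT
    rw [cyc_normal R] at hsR
    exact hs (by rw [Subgroup.mem_bot.1 hsR]; exact S.one_mem)
  · rw [not_subsingleton_iff_nontrivial] at hsub
    obtain ⟨a, b, hab⟩ := exists_pair_ne (IsFreeGroup.Generators T)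
    let ρ : T →* Module.End ℂ ℂ := (algebraMap ℂ (Module.End ℂ ℂ)).toMonoidHom.comp ω
    obtain ⟨κ, k1, k2⟩ := exists_cocycle (IsFreeGroup.basis T) ρ fun i => if i = a then 1 else 0
    obtain ⟨κ', k1', k2'⟩ := exists_cocycle (IsFreeGroup.basis T) ρ fun i => if i = b then 1 else 0
    have e1 := cob κ k1 (IsFreeGroup.basis T a)
    have e2 := cob κ k1 (IsFreeGroup.basis T b)
    have e3 := cob κ' k1' (IsFreeGroup.basis T b)
    rw [k2, if_pos rfl] at e1
    rw [k2, if_neg hab.symm] at e2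
    rw [k2', if_pos rfl] at e3
    have n1 := sub_ne_zero.2 ωs
    have n2 : κ s' ≠ 0 := fun e => n1 (by rw [e] at e1; linear_combination e1)
    have n3 := (mul_eq_zero.1 (e2.symm.trans (mul_zero _))).resolve_right n2
    rw [n3] at e3
    exact n1 (by linear_combination e3)

end Pool.Agent.Results.MP_16b0c2_al.Contain
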